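import Pool.Agent.PDM.Stmts

/-!
# AR3: the matching from the balanced groups
-/

set_option autoImplicit false

namespace Pool.Agent.PDM.H86

open Pool.Agent.PDN Pool.Agent.PDM

variable {t : ℕ} {τ : Ins t}

/-- bound for the difference of the degree and the scaled value -/
def eb : Big τ → ℕ
  | Sum.inl _ => 0
  | Sum.inr (Sum.inl _) => 10
  | Sum.inr (Sum.inr (Sum.inl _)) => 3
  | Sum.inr (Sum.inr (Sum.inr _)) => 0

theorem sum_eb : ∑ v : Big τ, eb v = 10 * τ.card + 12 := by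
  rw [Fintype.sum_sum_type, Fintype.sum_sum_type, Fintype.sum_sum_type]
  simp only [eb, Finset.sum_const_zero, Finset.sum_const, Finset.card_univ, Fintype.card_coe,
    smul_eq_mul, add_zero, zero_add]
  simp
  ring

theorem sc_pos : 400 ≤ sc τ := by
  unfold sc
  omega

theorem vC_pos (p : Fin t × Fin t × Fin t) : 8 ≤ vC p := by
  unfold vC vA
  have h : 0 < code (0 : Fin 3) p.1 := by
    unfold code
    have : 0 < bs t := by unfold bs; positivity
    positivity
  omega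

theorem dgr_near (v : Big τ) (hv : v ≠ zz) :
    |(dgr v : ℤ) - (sc τ : ℤ) * (val v : ℤ)| ≤ (eb v : ℤ) := by
  rcases v with x | p | x | k | u
  · simp [dgr, val, eb]
  · have h1 := vC_pos p.1
    have h2 := sc_pos (τ := τ)
    have h3 : 10 ≤ sc τ * vC p.1 := by nlinarith
    simp only [dgr, val, eb]
    push_cast [Nat.cast_sub h3]
    have : (sc τ : ℤ) * (vC p.1 : ℤ) - 10 - (sc τ : ℤ) * (vC p.1 : ℤ) = -10 := by ring
    rw [this]
    norm_num
  · simp only [dgr, val, eb]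
    push_cast
    have : ∀ a b : ℤ, a + b - a = b := fun a b => by ring
    rw [this]
    split_ifs <;> norm_num
  · simp [dgr, val, eb]
  · exact absurd rfl hv

theorem sum_near (C : Finset (Big τ)) (hC : zz ∉ C) (s : Big τ → ℤ)
    (hs : ∀ i, s i = 1 ∨ s i = -1) :
    |∑ i ∈ C, s i * (dgr i : ℤ) - (sc τ : ℤ) * ∑ i ∈ C, s i * (val i : ℤ)| ≤
      10 * (τ.card : ℤ) + 12 := by
  have h1 : ∑ i ∈ C, s i * (dgr i : ℤ) - (sc τ : ℤ) * ∑ i ∈ C, s i * (val i : ℤ) =
      ∑ i ∈ C, s i * ((dgr i : ℤ) - (sc τ : ℤ) * (val i : ℤ)) := by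
    rw [Finset.mul_sum, ← Finset.sum_sub_distrib]
    apply Finset.sum_congr rfl
    intro i _
    ring
  rw [h1]
  calc |∑ i ∈ C, s i * ((dgr i : ℤ) - (sc τ : ℤ) * (val i : ℤ))| ≤
      ∑ i ∈ C, |s i * ((dgr i : ℤ) - (sc τ : ℤ) * (val i : ℤ))| := Finset.abs_sum_le_sum_abs _ _
    _ ≤ ∑ i ∈ C, (eb i : ℤ) := by
        apply Finset.sum_le_sum
        intro i hi
        have hne : i ≠ zz := fun h => hC (h ▸ hi)
        have h2 := dgr_near i hne
        rw [abs_mul]
        rcases hs i with h | h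
        · rw [h]; simpa using h2
        · rw [h]; simpa using h2
    _ ≤ ∑ i : Big τ, (eb i : ℤ) :=
        Finset.sum_le_sum_of_subset_of_nonneg (Finset.subset_univ _) fun i _ _ => by positivity
    _ = 10 * (τ.card : ℤ) + 12 := by
        have h3 := sum_eb (τ := τ)
        have h4 : ((∑ i : Big τ, eb i : ℕ) : ℤ) = ((10 * τ.card + 12 : ℕ) : ℤ) := by rw [h3]
        push_cast at h4
        exact h4

theorem mul_small {S X a : ℤ} (hS : 0 < S) (h : |S * X| ≤ a) (ha : a < S) : X = 0 := by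
  by_contra hX
  have h1 : 1 ≤ |X| := Int.one_le_abs hX
  rw [abs_mul, abs_of_pos hS] at h
  nlinarith

/-- AR3 -/
theorem ar3 (sml : SmlStmt) (tot : TotStmt) (num : NumStmt) : Ar3Stmt := by
  intro t τ P hne hdis hP hbal hK
  obtain ⟨hN, -⟩ := num t τ
  obtain ⟨K, hzK, hKd, hKz⟩ := hK
  have hscv : (sc τ : ℤ) = 200 * ((t : ℤ) + τ.card + 2) := by unfold sc; push_cast; ring
  have hNv : (Fintype.card (Big τ) : ℤ) = 7 * t + τ.card + 9 := by
    rw [hN]; push_cast; ring
  have hscp : (0 : ℤ) < sc τ := by rw [hscv]; positivity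
  -- the groups without `Z`
  set P' : Finset (Finset (Big τ)) := P.filter (fun C => zz ∉ C) with hP'
  have hcard : t + 2 ≤ P'.card := by
    have h1 : (P.filter (fun C => ¬ zz ∉ C)).card ≤ 1 := by
      rw [Finset.card_le_one]
      intro C hC C' hC'
      rw [Finset.mem_filter, not_not] at hC hC'
      by_contra h
      exact Finset.disjoint_left.1 (hdis C hC.1 C' hC'.1 h) hC.2 hC'.2
    have h2 := Finset.card_filter_add_card_filter_not (s := P) (fun C => zz ∉ C)
    rw [← hP'] at h2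
    omega
  have hval : ∀ C ∈ P', ∃ s : Big τ → ℤ, (∀ i, s i = 1 ∨ s i = -1) ∧
      ∑ i ∈ C, s i * (val i : ℤ) = 0 := by
    intro C hC
    rw [hP', Finset.mem_filter] at hC
    obtain ⟨s, hs, hb⟩ := hbal C hC.1
    refine ⟨s, hs, ?_⟩
    have h1 := sum_near C hC.2 s hs
    have h2 : |(sc τ : ℤ) * ∑ i ∈ C, s i * (val i : ℤ)| ≤
        18 * (Fintype.card (Big τ) : ℤ) + (10 * (τ.card : ℤ) + 12) := by
      have h3 := abs_sub_abs_le_abs_sub ((sc τ : ℤ) * ∑ i ∈ C, s i * (val i : ℤ))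
        (∑ i ∈ C, s i * (dgr i : ℤ))
      rw [abs_sub_comm] at h3
      linarith
    refine mul_small hscp h2 ?_
    rw [hNv, hscv]
    have : (0 : ℤ) ≤ τ.card := by positivity
    linarith [(by positivity : (0 : ℤ) ≤ (t : ℤ))]
  -- the capacity of `Z`
  have hZ : vZ τ ≤ ∑ v ∈ K.erase zz, val v := by
    have h1 := sum_near (K.erase zz) (Finset.notMem_erase _ _) (fun _ => 1) (fun _ => Or.inl rfl)
    simp only [one_mul] at h1
    have h2 := (abs_le.1 h1).2
    have h3 : (dgr (zz : Big τ) : ℤ) ≤ ∑ i ∈ K.erase zz, (dgr i : ℤ) +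
        18 * (Fintype.card (Big τ) : ℤ) := by exact_mod_cast hKz
    have h4 : (sc τ : ℤ) * vZ τ ≤ dgr (zz : Big τ) + (14 * τ.card + 2 * t + 20) := by
      have h5 : sc τ * vZ τ ≤ dgr (zz : Big τ) + (14 * τ.card + 2 * t + 20) := by
        change sc τ * vZ τ ≤ (sc τ * vZ τ - (14 * τ.card + 2 * t + 20)) +
          (14 * τ.card + 2 * t + 20)
        omega
      exact_mod_cast h5
    have h6 : (sc τ : ℤ) * vZ τ < sc τ * (∑ v ∈ K.erase zz, (val v : ℤ) + 1) := by
      rw [mul_add, mul_one]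
      have : (0 : ℤ) ≤ τ.card := by positivity
      have : (0 : ℤ) ≤ t := by positivity
      rw [hNv] at h3
      have h7 : 18 * (7 * (t : ℤ) + τ.card + 9) + (14 * τ.card + 2 * t + 20) +
        (10 * (τ.card : ℤ) + 12) < sc τ := by
        rw [hscv]
        linarith
      linarith
    have h8 := lt_of_mul_lt_mul_left h6 hscp.le
    have h9 : (vZ τ : ℤ) ≤ ∑ v ∈ K.erase zz, (val v : ℤ) := by linarith [Int.lt_add_one_iff.1 h8]
    exact_mod_cast h9
  obtain ⟨hdm, htot, hel⟩ := tot t τ K hzK hZ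
  have hsub : ∀ C ∈ P', C ⊆ Kᶜ := by
    intro C hC v hv
    rw [hP', Finset.mem_filter] at hC
    rw [Finset.mem_compl]
    exact Finset.disjoint_left.1 (hKd C hC.1 hC.2) hv
  have hwt : ∀ C ∈ P', ∀ v ∈ C, wt v ≠ 0 := by
    intro C hC v hv
    have h1 := hsub C hC hv
    rw [Finset.mem_compl] at h1
    rcases v with x | p | x | k | u
    · simp [wt]
    · simp [wt]
    · simp [wt]
    · exact absurd (hdm k) h1
    · exact absurd hzK h1
  have hsml : ∀ C ∈ P', 10 ≤ ∑ v ∈ C, wt v ∧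
      (∑ v ∈ C, wt v = 10 → ∀ x, el x ∈ C → ∃ p : ↥τ,
        C = {tr p, el (0, p.1.1), el (1, p.1.2.1), el (2, p.1.2.2)}) := by
    intro C hC
    obtain ⟨s, hs, h0⟩ := hval C hC
    have hC' := hC
    rw [hP', Finset.mem_filter] at hC'
    exact sml t τ C s hs h0 (hne C hC'.1) (hwt C hC)
  -- counting
  set U : Finset (Big τ) := P'.biUnion id with hU
  have hUsum : ∑ v ∈ U, wt v = ∑ C ∈ P', ∑ v ∈ C, wt v := by
    rw [hU, Finset.sum_biUnion]
    · rfl
    · intro C hC C' hC' h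
      have h1 := (Finset.mem_filter.1 (Finset.mem_coe.1 hC)).1
      have h2 := (Finset.mem_filter.1 (Finset.mem_coe.1 hC')).1
      exact hdis C h1 C' h2 h
  have hUK : U ⊆ Kᶜ := by
    intro v hv
    rw [hU, Finset.mem_biUnion] at hv
    obtain ⟨C, hC, hv⟩ := hv
    exact hsub C hC hv
  have hUle : ∑ v ∈ U, wt v ≤ ∑ v ∈ Kᶜ, wt v := Finset.sum_le_sum_of_subset hUK
  have hge : 10 * P'.card ≤ ∑ v ∈ U, wt v := by
    rw [hUsum]
    calc 10 * P'.card = ∑ _C ∈ P', 10 := by rw [Finset.sum_const, smul_eq_mul, mul_comm]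
      _ ≤ ∑ C ∈ P', ∑ v ∈ C, wt v := Finset.sum_le_sum fun C hC => (hsml C hC).1
  have hten : ∀ C ∈ P', ∑ v ∈ C, wt v = 10 := by
    intro C hC
    by_contra h
    have h1 : 10 < ∑ v ∈ C, wt v := lt_of_le_of_ne (hsml C hC).1 (Ne.symm h)
    have h2 : ∑ _C ∈ P', 10 < ∑ C ∈ P', ∑ v ∈ C, wt v :=
      Finset.sum_lt_sum (fun C hC => (hsml C hC).1) ⟨C, hC, h1⟩
    rw [Finset.sum_const, smul_eq_mul, ← hUsum] at h2
    omega
  have hall : ∑ v ∈ Kᶜ, wt v = 10 * (t + 2) := by omega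
  have helK := hel hall
  have hin : ∀ x, ∃ C ∈ P', (el x : Big τ) ∈ C := by
    intro x
    by_contra hcon
    have hxU : (el x : Big τ) ∉ U := by
      intro h
      rw [hU, Finset.mem_biUnion] at h
      obtain ⟨C, hC, hv⟩ := h
      exact hcon ⟨C, hC, hv⟩
    have h1 : insert (el x : Big τ) U ⊆ Kᶜ := by
      intro v hv
      rcases Finset.mem_insert.1 hv with rfl | hv
      · rw [Finset.mem_compl]
        exact helK x
      · exact hUK hv
    have h2 : ∑ v ∈ insert (el x : Big τ) U, wt v ≤ ∑ v ∈ Kᶜ, wt v :=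
      Finset.sum_le_sum_of_subset h1
    rw [Finset.sum_insert hxU] at h2
    have h3 : wt (el x : Big τ) = 2 := rfl
    omega
  -- the triple of a group
  have hp : ∀ i : Fin t, ∃ (C : Finset (Big τ)) (p : ↥τ), C ∈ P' ∧
      C = {tr p, el (0, p.1.1), el (1, p.1.2.1), el (2, p.1.2.2)} ∧ p.1.1 = i := by
    intro i
    obtain ⟨C, hC, hx⟩ := hin (0, i)
    obtain ⟨p, hCp⟩ := (hsml C hC).2 (hten C hC) (0, i) hx
    refine ⟨C, p, hC, hCp, ?_⟩
    rw [hCp] at hx
    simp at hx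
    exact hx.symm
  choose Cf pf hCf hCp hpi using hp
  have hdisj : ∀ i j v, v ∈ Cf i → v ∈ Cf j → i = j := by
    intro i j v h1 h2
    have e : Cf i = Cf j := by
      by_contra h
      have a := (Finset.mem_filter.1 (hCf i)).1
      have b := (Finset.mem_filter.1 (hCf j)).1
      exact Finset.disjoint_left.1 (hdis _ a _ b h) h1 h2
    have h3 : (el (0, i) : Big τ) ∈ Cf j := by
      rw [← e, hCp i, hpi i]
      simp
    rw [hCp j, hpi j] at h3
    simp at h3
    exact h3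
  refine ⟨Finset.univ.image fun i => (pf i).1, ?_, ?_, ?_⟩
  · intro p hp
    obtain ⟨i, -, rfl⟩ := Finset.mem_image.1 hp
    exact (pf i).2
  · rw [Finset.card_image_of_injective, Finset.card_univ, Fintype.card_fin]
    intro i j h
    rw [← hpi i, ← hpi j]
    exact congrArg Prod.fst h
  · intro p hp p' hp' hne'
    obtain ⟨i, -, rfl⟩ := Finset.mem_image.1 hp
    obtain ⟨j, -, rfl⟩ := Finset.mem_image.1 hp'
    have hij : i ≠ j := fun h => hne' (by rw [h])
    refine ⟨?_, ?_, ?_⟩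
    · rw [hpi, hpi]
      exact hij
    · intro h
      apply hij
      apply hdisj i j (el (1, (pf i).1.2.1))
      · rw [hCp i]; simp
      · rw [hCp j, h]; simp
    · intro h
      apply hij
      apply hdisj i j (el (2, (pf i).1.2.2))
      · rw [hCp i]; simp
      · rw [hCp j, h]; simp

end Pool.Agent.PDM.H86
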