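import Pool.Agent.PDM.Stmts

/-!
# SID: digits, the Sidon property of the codes
-/

set_option autoImplicit false

namespace Pool.Agent.PDM.H86

open Pool.Agent.PDN Pool.Agent.PDM

/-- the digit at place `2 k` -/
def F {t : ℕ} (x : Fin 3 × Fin t) (k : Fin 3) : ℕ := if x.1 = k then (x.2 : ℕ) + 1 else 0

/-- the digit at place `2 k + 1` -/
def G {t : ℕ} (x : Fin 3 × Fin t) (k : Fin 3) : ℕ := if x.1 = k then ((x.2 : ℕ) + 1) ^ 2 else 0

theorem F_le {t : ℕ} (x : Fin 3 × Fin t) (k : Fin 3) : F x k ≤ t := by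
  unfold F
  split_ifs
  · exact x.2.2
  · omega

theorem G_le {t : ℕ} (x : Fin 3 × Fin t) (k : Fin 3) : G x k ≤ t ^ 2 := by
  unfold G
  split_ifs
  · exact Nat.pow_le_pow_left x.2.2 2
  · positivity

/-- Horner -/
def hor (B a0 a1 a2 a3 a4 a5 : ℕ) : ℕ :=
  a0 + B * (a1 + B * (a2 + B * (a3 + B * (a4 + B * a5))))

theorem code_eq {t : ℕ} (x : Fin 3 × Fin t) :
    code x.1 x.2 = hor (bs t) (F x 0) (G x 0) (F x 1) (G x 1) (F x 2) (G x 2) := by
  obtain ⟨k, i⟩ := x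
  unfold code hor F G
  fin_cases k <;> simp <;> ring

theorem step {B a b X Y : ℕ} (ha : a < B) (hb : b < B) (h : a + B * X = b + B * Y) :
    a = b ∧ X = Y := by
  have hB : 0 < B := by omega
  have h1 : a = b := by
    have h2 := congrArg (fun n => n % B) h
    simp only [Nat.add_mul_mod_self_left, Nat.mod_eq_of_lt ha, Nat.mod_eq_of_lt hb] at h2
    exact h2
  subst h1
  have h3 : B * X = B * Y := by omega
  exact ⟨rfl, Nat.eq_of_mul_eq_mul_left hB h3⟩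

theorem hor_inj {B a0 a1 a2 a3 a4 a5 b0 b1 b2 b3 b4 b5 : ℕ} (h0 : a0 < B) (h1 : a1 < B)
    (h2 : a2 < B) (h3 : a3 < B) (h4 : a4 < B) (g0 : b0 < B) (g1 : b1 < B)
    (g2 : b2 < B) (g3 : b3 < B) (g4 : b4 < B)
    (h : hor B a0 a1 a2 a3 a4 a5 = hor B b0 b1 b2 b3 b4 b5) :
    a0 = b0 ∧ a1 = b1 ∧ a2 = b2 ∧ a3 = b3 ∧ a4 = b4 ∧ a5 = b5 := by
  unfold hor at h
  obtain ⟨e0, h⟩ := step h0 g0 h
  obtain ⟨e1, h⟩ := step h1 g1 h
  obtain ⟨e2, h⟩ := step h2 g2 h
  obtain ⟨e3, h⟩ := step h3 g3 h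
  obtain ⟨e4, h⟩ := step h4 g4 h
  exact ⟨e0, e1, e2, e3, e4, h⟩

theorem hor_add (B a0 a1 a2 a3 a4 a5 b0 b1 b2 b3 b4 b5 : ℕ) :
    hor B a0 a1 a2 a3 a4 a5 + hor B b0 b1 b2 b3 b4 b5 =
      hor B (a0 + b0) (a1 + b1) (a2 + b2) (a3 + b3) (a4 + b4) (a5 + b5) := by
  unfold hor
  ring

theorem hor_lt {B a0 a1 a2 a3 a4 a5 : ℕ} (h0 : a0 < B) (h1 : a1 < B)
    (h2 : a2 < B) (h3 : a3 < B) (h4 : a4 < B) (h5 : a5 < B) : hor B a0 a1 a2 a3 a4 a5 < B ^ 6 := by
  unfold hor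
  have s : ∀ {a X n : ℕ}, a < B → X < B ^ n → a + B * X < B ^ (n + 1) := by
    intro a X n ha hX
    have : B * (X + 1) ≤ B * B ^ n := Nat.mul_le_mul_left B hX
    rw [pow_succ']
    nlinarith
  have e5 : a5 < B ^ 1 := by simpa using h5
  exact s h0 (s h1 (s h2 (s h3 (s h4 e5))))

theorem three_lt {t : ℕ} : 3 * t ^ 2 < bs t ∧ 3 * t < bs t := by
  unfold bs
  have h : 4 * (t + 1) ^ 2 = 4 * t ^ 2 + 8 * t + 4 := by ring
  rw [h]
  constructor <;> nlinarith [Nat.zero_le (t ^ 2), Nat.zero_le t]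

/-- the digits of a sum of at most three codes -/
theorem digits {t n : ℕ} (f g : Fin n → Fin 3 × Fin t) (hn : n ≤ 3)
    (h : ∑ j, code (f j).1 (f j).2 = ∑ j, code (g j).1 (g j).2) (k : Fin 3) :
    ∑ j, F (f j) k = ∑ j, F (g j) k ∧ ∑ j, G (f j) k = ∑ j, G (g j) k := by
  have hs : ∀ f : Fin n → Fin 3 × Fin t, ∑ j, code (f j).1 (f j).2 =
      hor (bs t) (∑ j, F (f j) 0) (∑ j, G (f j) 0) (∑ j, F (f j) 1) (∑ j, G (f j) 1)
        (∑ j, F (f j) 2) (∑ j, G (f j) 2) := by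
    intro f
    have e : ∀ s : Finset (Fin n), ∑ j ∈ s, code (f j).1 (f j).2 =
        hor (bs t) (∑ j ∈ s, F (f j) 0) (∑ j ∈ s, G (f j) 0) (∑ j ∈ s, F (f j) 1)
          (∑ j ∈ s, G (f j) 1) (∑ j ∈ s, F (f j) 2) (∑ j ∈ s, G (f j) 2) := by
      intro s
      classical
      induction s using Finset.induction_on with
      | empty => simp [hor]
      | insert a s ha ih =>
        simp only [Finset.sum_insert ha]
        rw [ih, code_eq, hor_add]
    exact e Finset.univ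
  rw [hs, hs] at h
  have hF : ∀ (f : Fin n → Fin 3 × Fin t) (k : Fin 3), ∑ j, F (f j) k < bs t := by
    intro f k
    have h1 : ∑ j, F (f j) k ≤ ∑ _j : Fin n, t := Finset.sum_le_sum fun j _ => F_le _ _
    rw [Finset.sum_const, Finset.card_univ, Fintype.card_fin, smul_eq_mul] at h1
    have h2 := (three_lt (t := t)).2
    have h3 : n * t ≤ 3 * t := Nat.mul_le_mul_right t hn
    omega
  have hG : ∀ (f : Fin n → Fin 3 × Fin t) (k : Fin 3), ∑ j, G (f j) k < bs t := by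
    intro f k
    have h1 : ∑ j, G (f j) k ≤ ∑ _j : Fin n, t ^ 2 := Finset.sum_le_sum fun j _ => G_le _ _
    rw [Finset.sum_const, Finset.card_univ, Fintype.card_fin, smul_eq_mul] at h1
    have h2 := (three_lt (t := t)).1
    have h3 : n * t ^ 2 ≤ 3 * t ^ 2 := Nat.mul_le_mul_right _ hn
    omega
  obtain ⟨e0, e1, e2, e3, e4, e5⟩ := hor_inj (hF f 0) (hG f 0) (hF f 1) (hG f 1) (hF f 2)
    (hF g 0) (hG g 0) (hF g 1) (hG g 1) (hF g 2) h
  fin_cases k
  · exact ⟨e0, e1⟩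
  · exact ⟨e2, e3⟩
  · exact ⟨e4, e5⟩

theorem F_self {t : ℕ} (x : Fin 3 × Fin t) : F x x.1 = (x.2 : ℕ) + 1 := if_pos rfl

theorem G_self {t : ℕ} (x : Fin 3 × Fin t) : G x x.1 = ((x.2 : ℕ) + 1) ^ 2 := if_pos rfl

theorem F_ne {t : ℕ} {x : Fin 3 × Fin t} {k : Fin 3} (h : x.1 ≠ k) : F x k = 0 := if_neg h

theorem G_ne {t : ℕ} {x : Fin 3 × Fin t} {k : Fin 3} (h : x.1 ≠ k) : G x k = 0 := if_neg h

theorem F_eq {t : ℕ} {x : Fin 3 × Fin t} {k : Fin 3} (h : x.1 = k) : F x k = (x.2 : ℕ) + 1 :=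
  if_pos h

theorem G_eq {t : ℕ} {x : Fin 3 × Fin t} {k : Fin 3} (h : x.1 = k) :
    G x k = ((x.2 : ℕ) + 1) ^ 2 := if_pos h

theorem inj2 {t : ℕ} {x x' : Fin 3 × Fin t} (h : ∀ k, F x k = F x' k) : x = x' := by
  have h1 := h x.1
  rw [F_self] at h1
  by_cases hk : x'.1 = x.1
  · rw [F_eq hk] at h1
    refine Prod.ext hk.symm (Fin.ext ?_)
    omega
  · rw [F_ne hk] at h1
    omega

/-- the core of the Sidon property -/
theorem sid2 {t : ℕ} {x₁ x₂ x₃ x₄ : Fin 3 × Fin t}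
    (hF : ∀ k, F x₁ k + F x₂ k = F x₃ k + F x₄ k) (hG : ∀ k, G x₁ k + G x₂ k = G x₃ k + G x₄ k)
    (h31 : x₃.1 = x₁.1) : (x₁ = x₃ ∧ x₂ = x₄) ∨ (x₁ = x₄ ∧ x₂ = x₃) := by
  have f1 := hF x₁.1
  have g1 := hG x₁.1
  rw [F_self, F_eq h31] at f1
  rw [G_self, G_eq h31] at g1
  by_cases h2 : x₂.1 = x₁.1
  · rw [F_eq h2] at f1
    rw [G_eq h2] at g1
    by_cases h4 : x₄.1 = x₁.1
    · rw [F_eq h4] at f1
      rw [G_eq h4] at g1
      have h5 : ((x₁.2 : ℕ) : ℤ) + x₂.2 = x₃.2 + x₄.2 := by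
        have : ((x₁.2 : ℕ) + 1 + ((x₂.2 : ℕ) + 1) : ℤ) = (x₃.2 : ℕ) + 1 + ((x₄.2 : ℕ) + 1) := by
          exact_mod_cast f1
        linarith
      have h6 : (((x₁.2 : ℕ) : ℤ) + 1) ^ 2 + (((x₂.2 : ℕ) : ℤ) + 1) ^ 2 =
          (((x₃.2 : ℕ) : ℤ) + 1) ^ 2 + (((x₄.2 : ℕ) : ℤ) + 1) ^ 2 := by exact_mod_cast g1
      have h7 : (((x₁.2 : ℕ) : ℤ) - x₃.2) * (((x₁.2 : ℕ) : ℤ) - x₄.2) = 0 := by
        have h8 : ((x₄.2 : ℕ) : ℤ) = x₁.2 + x₂.2 - x₃.2 := by linarith
        rw [h8] at h6 ⊢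
        nlinarith
      rcases mul_eq_zero.1 h7 with h | h
      · left
        have a : (x₁.2 : ℕ) = x₃.2 := by omega
        exact ⟨Prod.ext h31.symm (Fin.ext a), Prod.ext (h2.trans h4.symm) (Fin.ext (by omega))⟩
      · right
        have a : (x₁.2 : ℕ) = x₄.2 := by omega
        exact ⟨Prod.ext h4.symm (Fin.ext a), Prod.ext (h2.trans h31.symm) (Fin.ext (by omega))⟩
    · exfalso
      rw [F_ne h4] at f1
      rw [G_ne h4] at g1
      have h5 : (x₃.2 : ℕ) + 1 = (x₁.2 : ℕ) + 1 + ((x₂.2 : ℕ) + 1) := by omega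
      rw [h5] at g1
      nlinarith
  · rw [F_ne h2] at f1
    rw [G_ne h2] at g1
    by_cases h4 : x₄.1 = x₁.1
    · exfalso
      rw [F_eq h4] at f1
      rw [G_eq h4] at g1
      have h5 : (x₁.2 : ℕ) + 1 = (x₃.2 : ℕ) + 1 + ((x₄.2 : ℕ) + 1) := by omega
      rw [h5] at g1
      nlinarith
    · left
      rw [F_ne h4] at f1
      have f2 := hF x₂.1
      rw [F_self, F_ne (Ne.symm h2), F_ne (x := x₃) (by rw [h31]; exact Ne.symm h2)] at f2
      have h5 : x₄.1 = x₂.1 := by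
        by_contra h
        rw [F_ne h] at f2
        omega
      rw [F_eq h5] at f2
      exact ⟨Prod.ext h31.symm (Fin.ext (by omega)), Prod.ext h5.symm (Fin.ext (by omega))⟩

theorem sid2' {t : ℕ} {x₁ x₂ x₃ x₄ : Fin 3 × Fin t}
    (hF : ∀ k, F x₁ k + F x₂ k = F x₃ k + F x₄ k) (hG : ∀ k, G x₁ k + G x₂ k = G x₃ k + G x₄ k) :
    (x₁ = x₃ ∧ x₂ = x₄) ∨ (x₁ = x₄ ∧ x₂ = x₃) := by
  by_cases h31 : x₃.1 = x₁.1
  · exact sid2 hF hG h31
  · have h41 : x₄.1 = x₁.1 := by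
      by_contra h
      have f1 := hF x₁.1
      rw [F_self, F_ne h31, F_ne h] at f1
      omega
    exact (sid2 (fun k => (hF k).trans (add_comm _ _)) (fun k => (hG k).trans (add_comm _ _))
      h41).symm

theorem tri3 {t : ℕ} (p : Fin t × Fin t × Fin t) (x₁ x₂ x₃ : Fin 3 × Fin t)
    (hF : ∀ k, F (0, p.1) k + F (1, p.2.1) k + F (2, p.2.2) k = F x₁ k + F x₂ k + F x₃ k) :
    ({x₁, x₂, x₃} : Finset (Fin 3 × Fin t)) = {(0, p.1), (1, p.2.1), (2, p.2.2)} := by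
  obtain ⟨a, b, c⟩ := p
  obtain ⟨k₁, i₁⟩ := x₁
  obtain ⟨k₂, i₂⟩ := x₂
  obtain ⟨k₃, i₃⟩ := x₃
  have h0 := hF 0
  have h1 := hF 1
  have h2 := hF 2
  unfold F at h0 h1 h2
  fin_cases k₁ <;> fin_cases k₂ <;> fin_cases k₃ <;> simp at h0 h1 h2
  all_goals
    first
    | (have e1 : a = i₁ := Fin.ext (by omega)
       have e2 : b = i₂ := Fin.ext (by omega)
       have e3 : c = i₃ := Fin.ext (by omega)
       subst e1 e2 e3
       rfl)
    | (have e1 : a = i₁ := Fin.ext (by omega)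
       have e2 : b = i₃ := Fin.ext (by omega)
       have e3 : c = i₂ := Fin.ext (by omega)
       subst e1 e2 e3
       ext y
       simp only [Finset.mem_insert, Finset.mem_singleton]
       tauto)
    | (have e1 : a = i₂ := Fin.ext (by omega)
       have e2 : b = i₁ := Fin.ext (by omega)
       have e3 : c = i₃ := Fin.ext (by omega)
       subst e1 e2 e3
       ext y
       simp only [Finset.mem_insert, Finset.mem_singleton]
       tauto)
    | (have e1 : a = i₂ := Fin.ext (by omega)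
       have e2 : b = i₃ := Fin.ext (by omega)
       have e3 : c = i₁ := Fin.ext (by omega)
       subst e1 e2 e3
       ext y
       simp only [Finset.mem_insert, Finset.mem_singleton]
       tauto)
    | (have e1 : a = i₃ := Fin.ext (by omega)
       have e2 : b = i₁ := Fin.ext (by omega)
       have e3 : c = i₂ := Fin.ext (by omega)
       subst e1 e2 e3
       ext y
       simp only [Finset.mem_insert, Finset.mem_singleton]
       tauto)
    | (have e1 : a = i₃ := Fin.ext (by omega)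
       have e2 : b = i₂ := Fin.ext (by omega)
       have e3 : c = i₁ := Fin.ext (by omega)
       subst e1 e2 e3
       ext y
       simp only [Finset.mem_insert, Finset.mem_singleton]
       tauto)

/-- SID -/
theorem sid : SidStmt := by
  intro t
  refine ⟨?_, ?_, ?_, ?_, ?_⟩
  · intro x
    rw [code_eq]
    obtain ⟨h1, h2⟩ := three_lt (t := t)
    have hF : ∀ k, F x k < bs t := fun k => by have := F_le x k; omega
    have hG : ∀ k, G x k < bs t := fun k => by have := G_le x k; omega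
    exact hor_lt (hF 0) (hG 0) (hF 1) (hG 1) (hF 2) (hG 2)
  · intro x x' h
    unfold vA at h
    have h1 : code x.1 x.2 = code x'.1 x'.2 := by omega
    apply inj2
    intro k
    have := (digits (n := 1) (fun _ => x) (fun _ => x') (by omega) (by simpa using h1) k).1
    simpa using this
  · intro x₁ x₂ x₃ x₄ h
    unfold vA at h
    have h1 : code x₁.1 x₁.2 + code x₂.1 x₂.2 = code x₃.1 x₃.2 + code x₄.1 x₄.2 := by omega
    have h2 := digits (n := 2) ![x₁, x₂] ![x₃, x₄] (by omega) (by simpa [Fin.sum_univ_two] using h1)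
    simp only [Fin.sum_univ_two, Matrix.cons_val_zero, Matrix.cons_val_one] at h2
    exact sid2' (fun k => (h2 k).1) (fun k => (h2 k).2)
  · intro p x₁ x₂ x₃ h
    unfold vC vA at h
    have h1 : code 0 p.1 + code 1 p.2.1 + code 2 p.2.2 =
        code x₁.1 x₁.2 + code x₂.1 x₂.2 + code x₃.1 x₃.2 := by omega
    have h2 := digits (n := 3) ![(0, p.1), (1, p.2.1), (2, p.2.2)] ![x₁, x₂, x₃] (by omega)
      (by simpa [Fin.sum_univ_three] using h1)
    simp only [Fin.sum_univ_three, Matrix.cons_val_zero, Matrix.cons_val_one,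
      Matrix.cons_val_two, Matrix.tail_cons, Matrix.head_cons] at h2
    exact tri3 p x₁ x₂ x₃ (fun k => (h2 k).1)
  · intro p p' h
    unfold vC vA at h
    have h1 : code 0 p.1 + code 1 p.2.1 + code 2 p.2.2 =
        code 0 p'.1 + code 1 p'.2.1 + code 2 p'.2.2 := by omega
    have h2 := digits (n := 3) ![(0, p.1), (1, p.2.1), (2, p.2.2)]
      ![(0, p'.1), (1, p'.2.1), (2, p'.2.2)] (by omega) (by simpa [Fin.sum_univ_three] using h1)
    simp only [Fin.sum_univ_three, Matrix.cons_val_zero, Matrix.cons_val_one,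
      Matrix.cons_val_two, Matrix.tail_cons, Matrix.head_cons] at h2
    have a0 := (h2 0).1
    have a1 := (h2 1).1
    have a2 := (h2 2).1
    simp [F] at a0 a1 a2
    obtain ⟨p1, p2, p3⟩ := p
    obtain ⟨q1, q2, q3⟩ := p'
    simp only at a0 a1 a2
    have e1 : p1 = q1 := Fin.ext (by omega)
    have e2 : p2 = q2 := Fin.ext (by omega)
    have e3 : p3 = q3 := Fin.ext (by omega)
    rw [e1, e2, e3]

end Pool.Agent.PDM.H86
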